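import Pool.Agent.helper14.NS.Q30d.PN1

/-!
Generated: certificates.
-/

namespace Pool.Agent.helper14.NS.Q30d

open Pool.Agent.helper31.IA (Z)
open Pool.Agent.helper31.IX (Op XOps runX Cov CovD cov_split covD_split)
open Pool.Agent.helper31.IC (TD)
open Pool.Agent.helper63.RG (reloc)
open Pool.Agent.helper63.NF hiding TD
open Pool.Agent.helper4.NS
open Pool.Agent.helper14.CF (xE covD_E)
open Pool.Agent.helper14.NR (share)

mutual
theorem E1_c0_t2 : CovD 1 gE1 [(30541873152, 6109003776), (1236950581248, 137438953472), (863610339328, 863610339328)] :=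
  covD_E kE1_eq (.n 2 (.n 2 (.n 2 (.n 0 (.n 2 (.l 0) (.l 0)) (.n 2 (.l 0) (.l 0))) (.n 2 (.l 0) (.l 0))) (.n 2 (.n 0 (.l 0) (.l 0)) (.l 0))) (.n 2 (.n 2 (.l 0) (.l 0)) (.n 2 (.l 0) (.l 0))))
    [(30541873152, 6109003776), (1236950581248, 137438953472), (863610339328, 863610339328)] rfl (by decide +kernel)
theorem E1_c0_t3 : CovD 1 gE1 [(30541873152, 6109003776), (1511828488192, 137438953472), (863610339328, 863610339328)] :=
  covD_E kE1_eq (.n 2 (.n 2 (.n 2 (.n 0 (.n 2 (.l 0) (.l 0)) (.n 2 (.l 0) (.l 0))) (.n 2 (.l 0) (.l 0))) (.n 0 (.n 2 (.l 0) (.l 0)) (.n 2 (.l 0) (.l 0)))) (.n 2 (.n 2 (.l 0) (.l 0)) (.n 2 (.l 0) (.l 0))))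
    [(30541873152, 6109003776), (1511828488192, 137438953472), (863610339328, 863610339328)] rfl (by decide +kernel)
end

mutual
theorem E1_c0_t5 : CovD 1 gE1 [(30541873152, 6109003776), (1786706395136, 137438953472), (863610339328, 863610339328)] :=
  covD_E kE1_eq (.n 2 (.n 2 (.n 2 (.n 0 (.n 2 (.n 0 (.l 0) (.l 0)) (.l 0)) (.n 2 (.l 0) (.l 0))) (.n 2 (.l 0) (.l 0))) (.n 1 (.n 2 (.l 0) (.l 0)) (.n 2 (.l 0) (.l 0)))) (.n 2 (.n 2 (.l 0) (.l 0)) (.n 2 (.l 0) (.l 0))))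
    [(30541873152, 6109003776), (1786706395136, 137438953472), (863610339328, 863610339328)] rfl (by decide +kernel)
theorem E1_c0_t6 : CovD 1 gE1 [(30541873152, 6109003776), (2061584302080, 137438953472), (863610339328, 863610339328)] :=
  covD_E kE1_eq (.n 2 (.n 2 (.n 2 (.n 0 (.n 2 (.n 1 (.l 0) (.l 0)) (.l 0)) (.n 2 (.l 0) (.l 0))) (.n 2 (.l 0) (.l 0))) (.n 1 (.n 2 (.l 0) (.l 0)) (.n 2 (.l 0) (.l 0)))) (.n 2 (.n 2 (.l 0) (.l 0)) (.n 2 (.l 0) (.l 0))))
    [(30541873152, 6109003776), (2061584302080, 137438953472), (863610339328, 863610339328)] rfl (by decide +kernel)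
end

theorem E1_c0_t1 : CovD 1 gE1 [(30541873152, 6109003776), (1374389534720, 274877906944), (863610339328, 863610339328)] :=
  covD_split 1 (by decide +kernel) E1_c0_t2 E1_c0_t3

theorem E1_c0_t4 : CovD 1 gE1 [(30541873152, 6109003776), (1924145348608, 274877906944), (863610339328, 863610339328)] :=
  covD_split 1 (by decide +kernel) E1_c0_t5 E1_c0_t6

theorem E1_c0 : CovD 1 gE1 [(30541873152, 6109003776), (1649267441664, 549755813888), (863610339328, 863610339328)] :=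
  covD_split 1 (by decide +kernel) E1_c0_t1 E1_c0_t4

end Pool.Agent.helper14.NS.Q30d
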