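import Pool.Agent.helper14.NS.Cert

/-!
Generated: table Q30d.
-/

namespace Pool.Agent.helper14.NS.Q30d

open Pool.Agent.helper63.NF Pool.Agent.helper4.NS

def tab : TD where
  strip := false
  bm := none
  ec := 30601641984
  bc := 1649267441664
  H := [[[7744872896, 29259815680, -6050429632, 172287552], [-440330329792, -333304824704], [1798243031360]], [[1312233920, -4957138560, 1911493952], [208257739136, 51521425664]], [[-639038464, 621977600, -318041216], [-32409106560]], [[101427584, -53616704], [1819834816]], [[-7003712, 2646144]], [[112768]], [[6400]]]
  pol := some ⟨-1126892044288, -20237885898752, 5872294035456, 31362867265536, [[-104899831552, -77117852800], [-4666799764608, 0]], [[528254399552, -434603623616], [32445870598848, 0]]⟩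
  a := [[[460774113280, -10929111040, -99386392576, 78989492224], [-631770251264, 204608110592]], [[97357463552, -15264317440, 27234598912, 49702305792], [502857203712, 1084841787392]], [[78449278976, 4513529856, 5437980672, -23371907072], [-3586195456, 347262877696]], [[76805308416, -106889216, 65536, 0], [-5759631360, -3831300096]], [[77287849984, 215154688, 262144, 0], [11596136448, 7764836352]], [[76965806080, 0, 0, 0], [0, 0]]]
  j := [549755813888, 4123168604160, 3161095929856, 4260607557632, 5772436045824, 7146825580544]
  c := [879662989312, 879662989312, 659814350848, 549755813888, 439697276928, 329907175424]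
  M := [[[[1105944313856, 3495231488, -4804706304], [355803791360, 1278207131648], [32652545228800]], [[73858940928, 37533450240], [4876196249600]], [[95676399616, -95736954880], [-88797020160]], [[14029750272]], [[-104574091264]], [[128615579648]]], [[[1108887470080, 12906397696, 2209349632], [812378488832]], [[17447256064, 751108096], [585434005504]], [[-641597440]], [[47448064]]], [[[1109070839808, 11446714368, 3743809536], [745112338432]], [[16655187968, 836108288], [585609445376]], [[-383123456]], [[27721728]]], [[[1109748482048, 11957829632, 3968335872], [639815188480]], [[16300310528, 692846592], [586862821376]], [[-249692160]], [[16449536]]], [[[1109698674688, 12476809216, 4342677504], [632604655616]], [[16253190144, 501415936], [594491473920]], [[-200540160]], [[12386304]]], [[[1109549252608, 12841844736, 4218290176], [575051464704]], [[16221339648, 393019392], [606583193600]], [[-172359680]], [[10551296]]]]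
  l0 := [[[3605345438336, 189918875136], [4828369635584]], [[1313100071552, -266394106880], [-26293880609728]], [[341047344640, -312393680768], [3725762432640]], [[-174737980736, 946412992192], [-28762887969536]], [[3048702376128, -1189403320832], [28017704862720]], [[-8028391012288, 264919159872], [-57906829051520]], [[22153953330432]], [[-45189580932480]], [[72488569879360]], [[-86114439352768]], [[65971901969856]], [[-36502024981440]]]
  q0 := [[186028539520, 133402832576, 13169822592], [6911441935616, 5264254394176], [4714314822528]]
  t := [[[1691861450752, -425270378496, -210375737344, 201941778432], [-7052393578496, 15391137333248]], [[735753011200, 136874033152, 3002073088, -55809867776], [10781769859072, 14022040289280]], [[733549756416, 202979344384, -84512997376, -196744118272], [10604841861120, 10782320427008]], [[739060809728, 179841728512, -119266344960, -119786897408], [10701010763776, 9251767255040]], [[751761031168, 144758669312, -101349523456, 20009123840], [10222424031232, 8095013470208]], [[786869387264, 153868697600, -92628189184, 11603148800], [10394196967424, 7818257104896]]]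
  y := [8642547941376, 11110006652928, 13255342817280, 14913200193536, 16228533927936, 17264694788096]
  sc := [0, 0, 0, 0, 0, 0]
  L := [(0, 2), (0, 3), (1, 1), (2, 0)]
  Lt := [(0, 2), (0, 3), (1, 1)]
  far := 3
  x2 := 10775214161920
  B1 := 1099511627776
  C2 := 1436096814080
  f1 := 0
  f2 := 0
  f3 := 0
  is1 := 8796093022208
  s1 := 137438953472

end Pool.Agent.helper14.NS.Q30d
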